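import Mathlib

open Set Filter Topology TopologicalSpace

universe u v w

namespace Pool.Agent.Results.MP_041d76_gt.SumsFail

/-- `InCkM Z`: the space `Z` belongs to the class `C_k[𝓜]`, i.e. `Z` embeds topologically in
`C_k(X, Y)` (the continuous maps with the compact-open topology, Mathlib's topology on `C(X, Y)`)
for some separable metrizable space `X` and some metrizable space `Y`. -/
def InCkM (Z : Type u) [TopologicalSpace Z] : Prop :=
  ∃ (X : Type v) (_ : TopologicalSpace X) (Y : Type w) (_ : TopologicalSpace Y),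
    SeparableSpace X ∧ MetrizableSpace X ∧ MetrizableSpace Y ∧
      ∃ e : Z → C(X, Y), IsEmbedding e

/-- `InCkM0 Z`: the space `Z` belongs to the class `C_k[𝓜₀]`, i.e. `Z` embeds topologically in
`C_k(X, Y)` for some separable metrizable spaces `X` and `Y`. -/
def InCkM0 (Z : Type) [TopologicalSpace Z] : Prop :=
  ∃ (X : Type) (_ : TopologicalSpace X) (Y : Type) (_ : TopologicalSpace Y),
    SeparableSpace X ∧ MetrizableSpace X ∧ SeparableSpace Y ∧ MetrizableSpace Y ∧
      ∃ e : Z → C(X, Y), IsEmbedding e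

theorem nhds_basis_Ck {X : Type v} [TopologicalSpace X] {Y : Type w} [PseudoMetricSpace Y]
    (f : C(X, Y)) :
    (𝓝 f).HasBasis (fun p : Set X × ℕ => IsCompact p.1)
      (fun p => {g | ∀ x ∈ p.1, dist (g x) (f x) < 1 / ((p.2 : ℝ) + 1)}) := by
  have h := nhds_basis_uniformity
    (Metric.uniformity_basis_dist_inv_nat_succ (α := Y)).compactConvergenceUniformity (x := f)
      (α := C(X, Y))
  simpa using h

/-- compactness of a set squeezed onto a compact set -/
theorem isCompact_squeeze {X : Type v} [PseudoMetricSpace X] {K : Set X} (hK : IsCompact K)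
    (L : ℕ → Set X) (hL : ∀ i, IsCompact (L i))
    (hLK : ∀ i, L i ⊆ Metric.thickening (1 / ((i : ℝ) + 1)) K) :
    IsCompact (K ∪ ⋃ i, L i) := by
  classical
  apply isCompact_of_finite_subcover
  intro ι U hU hcov
  obtain ⟨t, ht⟩ := hK.elim_finite_subcover U hU (subset_union_left.trans hcov)
  obtain ⟨δ, hδ, hδt⟩ := hK.exists_thickening_subset_open
    (isOpen_biUnion fun i (_ : i ∈ t) => hU i) ht
  obtain ⟨N, hN⟩ := exists_nat_one_div_lt hδ
  have hfin : IsCompact (⋃ i ∈ Finset.range N, L i) :=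
    (Finset.range N).isCompact_biUnion fun i _ => hL i
  obtain ⟨t', ht'⟩ := hfin.elim_finite_subcover U hU (by
    refine Subset.trans ?_ hcov
    refine Subset.trans ?_ subset_union_right
    exact iUnion₂_subset fun i _ => subset_iUnion L i)
  refine ⟨t ∪ t', ?_⟩
  intro x hx
  have key : x ∈ (⋃ i ∈ t, U i) ∨ x ∈ (⋃ i ∈ t', U i) := by
    rcases hx with hx | hx
    · exact Or.inl (ht hx)
    · obtain ⟨i, hi⟩ := mem_iUnion.1 hx
      by_cases hiN : i < N
      · exact Or.inr (ht' (mem_iUnion₂.2 ⟨i, Finset.mem_range.2 hiN, hi⟩))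
      · left
        apply hδt
        apply Metric.thickening_mono _ _ (hLK i hi)
        refine le_trans ?_ hN.le
        apply one_div_le_one_div_of_le (by positivity)
        have : (N : ℝ) ≤ i := by exact_mod_cast not_lt.1 hiN
        linarith
  rcases key with h | h
  · obtain ⟨i, hi, hxi⟩ := mem_iUnion₂.1 h
    exact mem_iUnion₂.2 ⟨i, Finset.mem_union_left _ hi, hxi⟩
  · obtain ⟨i, hi, hxi⟩ := mem_iUnion₂.1 h
    exact mem_iUnion₂.2 ⟨i, Finset.mem_union_right _ hi, hxi⟩

/-- the key counting argument -/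
theorem key {X : Type v} [TopologicalSpace X] [SeparableSpace X] [MetrizableSpace X]
    {Y : Type w} [TopologicalSpace Y] [MetrizableSpace Y]
    (𝒜 : Set (Set ℝ)) (e : (Σ A : 𝒜, C((A : Set ℝ), ℝ)) → C(X, Y)) (he : IsEmbedding e) :
    Cardinal.mk 𝒜 ≤ Cardinal.continuum := by
  classical
  let _ : MetricSpace X := metrizableSpaceMetric X
  let _ : MetricSpace Y := metrizableSpaceMetric Y
  have : SecondCountableTopology X := UniformSpace.secondCountable_of_separable X
  -- the restricted embeddings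
  let eA : ∀ A : 𝒜, C((A : Set ℝ), ℝ) → C(X, Y) := fun A g => e ⟨A, g⟩
  have heA : ∀ A, IsEmbedding (eA A) := fun A => he.comp IsEmbedding.sigmaMk
  let N : ∀ A : 𝒜, Set X → ℕ → Set C((A : Set ℝ), ℝ) := fun A K n =>
    {g | ∀ x ∈ K, dist (eA A g x) (eA A 0 x) < 1 / ((n : ℝ) + 1)}
  let φ : ∀ A : 𝒜, Set X → ℕ → Set (A : Set ℝ) := fun A K n => {a | ∀ g ∈ N A K n, |g a| ≤ 1}
  -- monotonicity
  have hmono : ∀ A K K' n, K ⊆ K' → φ A K n ⊆ φ A K' n := by
    intro A K K' n hKK a ha g hg
    exact ha g (fun x hx => hg x (hKK hx))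
  -- covering
  have hcover : ∀ (A : 𝒜) (a : (A : Set ℝ)), ∃ K : Set X, IsCompact K ∧ ∃ n, a ∈ φ A K n := by
    intro A a
    have h1 : {g : C((A : Set ℝ), ℝ) | |g a| < 1} ∈ 𝓝 (0 : C((A : Set ℝ), ℝ)) := by
      have hc : Continuous fun g : C((A : Set ℝ), ℝ) => |g a| :=
        (continuous_eval_const a).abs
      apply (isOpen_lt hc continuous_const).mem_nhds
      simp
    rw [(heA A).nhds_eq_comap] at h1
    obtain ⟨V, hV, hVU⟩ := h1
    obtain ⟨⟨K, n⟩, hK, hKV⟩ := (nhds_basis_Ck (eA A 0)).mem_iff.1 hV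
    refine ⟨K, hK, n, ?_⟩
    intro g hg
    have h2 : eA A g ∈ V := hKV hg
    exact le_of_lt (hVU h2)
  -- compactness
  have hcpt : ∀ (A : 𝒜) (K : Set X) (n : ℕ), IsCompact K → IsCompact (φ A K n) := by
    intro A K n hK
    have h1 : N A K n ∈ 𝓝 (0 : C((A : Set ℝ), ℝ)) := by
      have h2 := (nhds_basis_Ck (eA A 0)).mem_of_mem (i := (K, n)) hK
      exact (heA A).continuous.continuousAt.preimage_mem_nhds h2
    obtain ⟨⟨L, m⟩, hL, hLN⟩ := (nhds_basis_Ck (0 : C((A : Set ℝ), ℝ))).mem_iff.1 h1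
    have hclosed : IsClosed (φ A K n) := by
      have : φ A K n = ⋂ g ∈ N A K n, {a | |g a| ≤ 1} := by
        ext a; simp [φ]
      rw [this]
      apply isClosed_biInter
      intro g _
      exact isClosed_le g.continuous.abs continuous_const
    refine IsCompact.of_isClosed_subset hL hclosed ?_
    intro a ha
    by_contra haL
    obtain ⟨f, hf0, hf1, _⟩ := exists_continuous_zero_one_of_isClosed hL.isClosed
      (isClosed_singleton (x := a)) (by
        rw [disjoint_singleton_right]; exact haL)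
    have h3 : (2 : ℝ) • f ∈ N A K n := by
      apply hLN
      intro x hx
      have h4 := hf0 hx
      simp only [Pi.zero_apply] at h4
      simp only [ContinuousMap.smul_apply, h4, smul_zero, ContinuousMap.zero_apply, dist_self]
      positivity
    have h5 := ha _ h3
    have h6 := hf1 (mem_singleton a)
    simp only [Pi.one_apply] at h6
    simp only [ContinuousMap.smul_apply, h6] at h5
    norm_num at h5
  -- the code of `A`
  let T : 𝒜 → Set (Finset (countableBasis X) × ℕ × ℚ × ℚ) := fun A =>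
    {p | ∃ K : Set X, IsCompact K ∧ K ⊆ (⋃ W ∈ p.1, (W : Set X)) ∧
      ∃ a ∈ φ A K p.2.1, ((p.2.2.1 : ℝ) < a) ∧ ((a : ℝ) < p.2.2.2)}
  have hT : ∀ A : 𝒜, (A : Set ℝ) = {a : ℝ | ∃ K : Set X, IsCompact K ∧ ∃ n : ℕ,
      ∀ F : Finset (countableBasis X), K ⊆ (⋃ W ∈ F, (W : Set X)) → ∀ p q : ℚ, (p : ℝ) < a →
        a < q → (F, n, p, q) ∈ T A} := by
    intro A
    ext a
    constructor
    · intro ha
      obtain ⟨K, hK, n, hn⟩ := hcover A ⟨a, ha⟩
      refine ⟨K, hK, n, fun F hF p q hp hq => ⟨K, hK, hF, ⟨a, ha⟩, hn, hp, hq⟩⟩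
    · rintro ⟨K, hK, n, h⟩
      -- neighbourhoods
      have hF : ∀ i : ℕ, ∃ F : Finset (countableBasis X), K ⊆ (⋃ W ∈ F, (W : Set X)) ∧
          (⋃ W ∈ F, (W : Set X)) ⊆ Metric.thickening (1 / ((i : ℝ) + 1)) K := by
        intro i
        have hopen : IsOpen (Metric.thickening (1 / ((i : ℝ) + 1)) K) := Metric.isOpen_thickening
        have hsub : K ⊆ Metric.thickening (1 / ((i : ℝ) + 1)) K :=
          Metric.self_subset_thickening (by positivity) K
        have hpt : ∀ x : K, ∃ W : countableBasis X, (x : X) ∈ (W : Set X) ∧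
            (W : Set X) ⊆ Metric.thickening (1 / ((i : ℝ) + 1)) K := by
          intro x
          obtain ⟨W, hW, hxW, hWsub⟩ := (isBasis_countableBasis X).exists_subset_of_mem_open
            (hsub x.2) hopen
          exact ⟨⟨W, hW⟩, hxW, hWsub⟩
        choose W hW1 hW2 using hpt
        obtain ⟨t, ht⟩ := hK.elim_finite_subcover (fun x : K => (W x : Set X))
          (fun x => isOpen_of_mem_countableBasis (W x).2)
          (fun x hx => mem_iUnion.2 ⟨⟨x, hx⟩, hW1 _⟩)
        refine ⟨t.image W, ?_, ?_⟩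
        · intro x hx
          obtain ⟨y, hy, hxy⟩ := mem_iUnion₂.1 (ht hx)
          exact mem_iUnion₂.2 ⟨W y, Finset.mem_image_of_mem W hy, hxy⟩
        · intro x hx
          obtain ⟨V, hV, hxV⟩ := mem_iUnion₂.1 hx
          obtain ⟨y, hy, rfl⟩ := Finset.mem_image.1 hV
          exact hW2 y hxV
      choose F hF1 hF2 using hF
      have hp : ∀ i : ℕ, ∃ p : ℚ, a - 1 / ((i : ℝ) + 1) < p ∧ (p : ℝ) < a := fun i =>
        exists_rat_btwn (by
          have : (0 : ℝ) < 1 / ((i : ℝ) + 1) := by positivity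
          linarith)
      have hq : ∀ i : ℕ, ∃ q : ℚ, a < q ∧ (q : ℝ) < a + 1 / ((i : ℝ) + 1) := fun i =>
        exists_rat_btwn (by
          have : (0 : ℝ) < 1 / ((i : ℝ) + 1) := by positivity
          linarith)
      choose p hp1 hp2 using hp
      choose q hq1 hq2 using hq
      have hmem : ∀ i, ∃ L : Set X, IsCompact L ∧ L ⊆ (⋃ W ∈ F i, (W : Set X)) ∧
          ∃ b ∈ φ A L n, ((p i : ℝ) < b) ∧ ((b : ℝ) < q i) := fun i =>
        h (F i) (hF1 i) (p i) (q i) (hp2 i) (hq1 i)
      choose L hL1 hL2 b hb hb1 hb2 using hmem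
      have hK' : IsCompact (K ∪ ⋃ i, L i) :=
        isCompact_squeeze hK L hL1 (fun i => (hL2 i).trans (hF2 i))
      have hcl : IsClosed ((↑) '' φ A (K ∪ ⋃ i, L i) n : Set ℝ) :=
        ((hcpt A _ n hK').image continuous_subtype_val).isClosed
      have hlim : Tendsto (fun i => (b i : ℝ)) atTop (𝓝 a) := by
        have h1 : Tendsto (fun i : ℕ => a - 1 / ((i : ℝ) + 1)) atTop (𝓝 (a - 0)) :=
          tendsto_const_nhds.sub tendsto_one_div_add_atTop_nhds_zero_nat
        have h2 : Tendsto (fun i : ℕ => a + 1 / ((i : ℝ) + 1)) atTop (𝓝 (a + 0)) :=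
          tendsto_const_nhds.add tendsto_one_div_add_atTop_nhds_zero_nat
        rw [sub_zero] at h1
        rw [add_zero] at h2
        exact tendsto_of_tendsto_of_tendsto_of_le_of_le h1 h2
          (fun i => ((hp1 i).trans (hb1 i)).le) (fun i => ((hb2 i).trans (hq2 i)).le)
      have hamem : a ∈ ((↑) '' φ A (K ∪ ⋃ i, L i) n : Set ℝ) :=
        hcl.mem_of_tendsto hlim (Eventually.of_forall fun i =>
          ⟨b i, hmono A _ _ n ((subset_iUnion L i).trans subset_union_right) (hb i), rfl⟩)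
      obtain ⟨a', _, rfl⟩ := hamem
      exact a'.2
  have hinj : Function.Injective T := by
    intro A B hAB
    apply Subtype.ext
    rw [hT A, hT B, hAB]
  obtain ⟨c, hc⟩ := exists_injective_nat (Finset (countableBasis X) × ℕ × ℚ × ℚ)
  have hinj2 : Function.Injective (fun A : 𝒜 => c '' T A) := fun A B h =>
    hinj (hc.image_injective h)
  have hcard := Cardinal.mk_le_of_injective hinj2
  rwa [Cardinal.mk_set, Cardinal.mk_nat, Cardinal.two_power_aleph0] at hcard

theorem inCkM_of_subset (A : Set ℝ) : InCkM0 C(A, ℝ) :=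
  ⟨A, inferInstance, ℝ, inferInstance, inferInstance, inferInstance, inferInstance,
    inferInstance, id, IsEmbedding.id⟩

/-- **Negative answer to Q1.** There is a family of `𝔠⁺` spaces in `C_k[𝓜₀] ⊆ C_k[𝓜]` whose
topological sum is not in `C_k[𝓜]`. -/
theorem result : ∃ (I : Type) (S : I → Type) (_ : ∀ i, TopologicalSpace (S i)),
    Cardinal.mk I = Order.succ Cardinal.continuum ∧ (∀ i, InCkM0 (S i)) ∧
      ¬ InCkM.{0, v, w} (Σ i, S i) := by
  have h1 : Order.succ Cardinal.continuum ≤ Cardinal.mk (Set ℝ) := by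
    rw [Order.succ_le_iff, Cardinal.mk_set, Cardinal.mk_real]
    exact Cardinal.cantor _
  obtain ⟨𝒜, h𝒜⟩ := Cardinal.le_mk_iff_exists_set.1 h1
  refine ⟨𝒜, fun A => C((A : Set ℝ), ℝ), fun A => inferInstance, h𝒜,
    fun A => inCkM_of_subset _, ?_⟩
  rintro ⟨X, _, Y, _, _, _, _, e, he⟩
  have h2 := key 𝒜 e he
  rw [h𝒜] at h2
  exact absurd h2 (not_le.2 (Order.lt_succ _))

end Pool.Agent.Results.MP_041d76_gt.SumsFail
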